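import Pool.Agent.Q198.SK.GEN1

/-!
# Lemma job GEN: the induced module is finitely generated
(project of helper160, frozen statement S10395)
-/

set_option autoImplicit false
set_option linter.unusedSectionVars false

namespace Pool.Agent.Q198.SK

open Pool.Agent.Q160.SK Pool.Agent.Q178.SK Pool.Agent.Q151.SK

section gen

variable {A J C X : Type} [DecidableEq A] [Fintype A] [DecidableEq J] [DecidableEq C] [Fintype C]
  [AddCommGroup X] [Module ℚ X] {R : Dat A J} {O : Ops A J C X} {M : Submodule ℚ X} {i : J}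

/-- the part of the weight space reached by the variables -/
noncomputable def PP (R : Dat A J) (O : Ops A J C X) (i : J) (M : Submodule ℚ X) (μ : A → ℤ) :
    Submodule ℚ (ℕ →₀ X) :=
  ⨆ q : A × C, (indM R O i M ⊓ (ind R O i).W (μ - Pi.single q.1 1)).map ((ind R O i).Z q.1 q.2)

lemma mem_PP (q : A × C) (μ : A → ℤ) (u : ℕ →₀ X) (hu : u ∈ indM R O i M)
    (hu2 : u ∈ (ind R O i).W (μ - Pi.single q.1 1)) : (ind R O i).Z q.1 q.2 u ∈ PP R O i M μ :=
  Submodule.mem_iSup_of_mem q ⟨u, ⟨hu, hu2⟩, rfl⟩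

lemma e_PP (hM : Good R O M) (μ : A → ℤ) (x : ℕ →₀ X) (hx : x ∈ PP R O i M μ) :
    (ind R O i).e i x ∈ PP R O i M (μ + R.al i) := by
  have hRI : Rels R (ind R O i) := t_REL A J C X R O i hM.rels
  unfold PP at hx
  induction hx using Submodule.iSup_induction' with
  | mem q x hx =>
    obtain ⟨u, ⟨hu1, hu2⟩, rfl⟩ := hx
    have h1 := LinearMap.congr_fun (hRI.eZ i q.1 q.2) u
    rw [Module.End.mul_apply, LinearMap.add_apply, Module.End.mul_apply] at h1
    rw [h1]
    refine Submodule.add_mem _ ?_ ?_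
    · refine mem_PP q _ _ (sta_e hM i i u hu1) ?_
      have h2 := e_mem_W hRI i _ u hu2
      have h3 : μ + R.al i - Pi.single q.1 1 = μ - Pi.single q.1 1 + R.al i := by abel
      rw [h3]
      exact h2
    · by_cases hq : q.1 = R.src i
      · rw [if_pos hq]
        refine mem_PP (R.tgt i, q.2) _ _ hu1 ?_
        have h3 : μ + R.al i - Pi.single (R.tgt i) 1 = μ - Pi.single q.1 1 := by
          rw [hq]
          funext b
          simp only [Pi.add_apply, Pi.sub_apply, Dat.al, Pi.single_apply]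
          ring
        simp only
        rw [h3]
        exact hu2
      · rw [if_neg hq, LinearMap.zero_apply]
        exact Submodule.zero_mem _
  | zero =>
    rw [map_zero]
    exact Submodule.zero_mem _
  | add x y _ _ hx hy =>
    rw [map_add]
    exact Submodule.add_mem _ hx hy

lemma tens_pow_W (hM : Good R O M) (i : J) (ν : A → ℤ) (g : A × C → X) (hgW : g ∈ (tens R O).W ν)
    (k : ℕ) : ((tens R O).e i ^ k) g ∈ (tens R O).W (ν + (k : ℤ) • R.al i) := by
  have hpre := t_PRK t_NOE A J C X R O M i hM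
  induction k with
  | zero => simpa using hgW
  | succ k ih =>
    rw [pow_succ', Module.End.mul_apply]
    intro a
    have h4 := LinearMap.congr_fun (hpre.he a) (((tens R O).e i ^ k) g)
    rw [Module.End.mul_apply, LinearMap.add_apply, Module.End.mul_apply,
      LinearMap.smul_apply, ih a, map_smul, ← add_smul] at h4
    rw [h4]
    congr 1
    simp only [Pi.add_apply, Pi.smul_apply, smul_eq_mul]
    push_cast
    ring

lemma tens_pow_M (hM : Good R O M) (i : J) (g : A × C → X) (hg : ∀ q, g q ∈ M)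
    (k : ℕ) (q : A × C) : ((tens R O).e i ^ k) g q ∈ M := by
  induction k generalizing q with
  | zero => exact hg q
  | succ k ih =>
    rw [pow_succ', Module.End.mul_apply, tens_e]
    refine M.add_mem (hM.est i _ (ih q)) ?_
    split_ifs
    · exact ih _
    · exact M.zero_mem

/-- lowest weight vectors are reached by the variables -/
lemma low_PP (hM : Good R O M) (hVk : Van R (tens R O) i (kerM O M) 0) (p : ℕ) (ν : A → ℤ)
    (hν : ν (R.tgt i) - ν (R.src i) = -(p : ℤ)) (m : X) (hm : (O.e i ^ (p + 1)) m = 0)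
    (hgen : m ∈ ⨆ q : A × C, (M ⊓ O.W (ν - Pi.single q.1 1)).map (O.Z q.1 q.2)) :
    (Finsupp.single 0 m : ℕ →₀ X) ∈ PP R O i M ν := by
  have hR := hM.rels
  obtain ⟨g, hg, hgm⟩ := exists_comp (fun q : A × C => O.Z q.1 q.2)
    (fun q => M ⊓ O.W (ν - Pi.single q.1 1)) m hgen
  have hgW : g ∈ (tens R O).W ν := mem_tens_W _ g (fun q => (hg q).2)
  have hy : ((tens R O).e i ^ (p + 1)) g ∈
      kerM O M ⊓ (tens R O).W (ν + ((p : ℤ) + 1) • R.al i) := by
    refine ⟨⟨fun q => tens_pow_M hM i g (fun q => (hg q).1) (p + 1) q, ?_⟩, ?_⟩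
    · rw [mult_e_pow hR, hgm, hm]
    · have h5 := tens_pow_W hM i ν g hgW (p + 1)
      push_cast at h5
      exact h5
  obtain ⟨κ, hκ, hκe⟩ := hVk p ν (by rw [hν]; ring) _ hy
  have h6 := lift_low hM i p ν hν (g - κ)
    (fun q => M.sub_mem (hg q).1 (hκ.1.1 q)) (Submodule.sub_mem _ hgW hκ.2)
    (by rw [map_sub, hκe, sub_self])
  have h7 : ∑ q : A × C, O.Z q.1 q.2 ((g - κ) q) = m := by
    simp only [Pi.sub_apply, map_sub, Finset.sum_sub_distrib]
    rw [hκ.1.2, sub_zero]
    exact hgm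
  rw [h7] at h6
  exact h6

end gen

theorem t_GEN : S_GEN := by
  intro A J C X _ _ _ _ _ _ _ R O M i hM hV hVk
  obtain ⟨d, hd⟩ := hM.gen
  refine ⟨d, ?_⟩
  intro μ hμ
  have hsum_al : ∀ (m : ℤ) (μ : A → ℤ), ∑ a, (μ + m • R.al i) a = ∑ a, μ a := by
    intro m μ
    simp only [Pi.add_apply, Pi.smul_apply, smul_eq_mul, Finset.sum_add_distrib, ← Finset.mul_sum]
    have : ∑ a, R.al i a = 0 := by
      simp only [Dat.al, Finset.sum_sub_distrib]
      rw [Finset.sum_ite_eq', Finset.sum_ite_eq']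
      simp
    rw [this, mul_zero, add_zero]
  have hstr := t_STR A J C X R O M i hM μ
  have hE : ∀ n : ℤ, ∀ x ∈ PP R O i M (μ + n • R.al i),
      (ind R O i).e i x ∈ PP R O i M (μ + (n + 1) • R.al i) := by
    intro n x hx
    have h1 := e_PP hM _ x hx
    have h2 : μ + (n + 1) • R.al i = μ + n • R.al i + R.al i := by
      rw [add_smul, one_smul, add_assoc]
    rw [h2]
    exact h1
  have hL : ∀ n : ℤ, ∀ f ∈ indM R O i M ⊓ (ind R O i).W (μ + n • R.al i),
      (-dd : Module.End ℚ (ℕ →₀ X)) f = 0 → f ∈ PP R O i M (μ + n • R.al i) := by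
    intro n f hf hf0
    have hnu : (μ + n • R.al i) (R.tgt i) - (μ + n • R.al i) (R.src i)
        = μ (R.tgt i) - μ (R.src i) + 2 * n := by
      simp only [Pi.add_apply, Pi.smul_apply, al_tgt, al_src, smul_eq_mul]
      ring
    by_cases hb : 0 < μ (R.tgt i) - μ (R.src i) + 2 * n
    · have h1 : f = 0 := hstr.inj n hb f hf hf0
      rw [h1]
      exact Submodule.zero_mem _
    · push Not at hb
      obtain ⟨p, hp⟩ : ∃ p : ℕ, μ (R.tgt i) - μ (R.src i) + 2 * n = -(p : ℤ) :=
        ⟨(-(μ (R.tgt i) - μ (R.src i) + 2 * n)).toNat, by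
          rw [Int.toNat_of_nonneg (by linarith)]
          ring⟩
      rw [hp] at hnu
      obtain ⟨m, hm, hme, hfm⟩ :=
        (t_LOW A J C X R O M i hM p (μ + n • R.al i) hnu f).mp ⟨hf, hf0⟩
      rw [hfm]
      exact low_PP hM hVk p _ hnu m hme (hd _ (by rw [hsum_al]; exact hμ) hm)
  have key := t_SLG (ℕ →₀ X) ((ind R O i).e i) (-dd)
    ((ind R O i).h (R.tgt i) - (ind R O i).h (R.src i))
    (fun n : ℤ => indM R O i M ⊓ (ind R O i).W (μ + n • R.al i))
    (fun n : ℤ => PP R O i M (μ + n • R.al i)) (μ (R.tgt i) - μ (R.src i)) hstr hE hL 0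
  have h0 : μ + (0 : ℤ) • R.al i = μ := by rw [zero_smul, add_zero]
  simp only [h0] at key
  exact key

end Pool.Agent.Q198.SK
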