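import Pool.Agent.Q160.SK.Stm

/-!
# Lemma job NOE: Hilbert's basis theorem for the kernel of the multiplication map
(project of helper160, frozen statement S10395)
-/

set_option autoImplicit false

namespace Pool.Agent.Q198.SK

open Pool.Agent.Q160.SK

open scoped IsMulCommutative in
/-- commuting operators give an action of the polynomial ring -/
lemma exists_hom {ι X : Type} [AddCommGroup X] [Module ℚ X] (z : ι → Module.End ℚ X)
    (hz : ∀ a b, z a * z b = z b * z a) :
    ∃ φ : MvPolynomial ι ℚ →ₐ[ℚ] Module.End ℚ X, ∀ a, φ (MvPolynomial.X a) = z a := by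
  have hcomm : ∀ x ∈ Set.range z, ∀ y ∈ Set.range z, x * y = y * x := by
    rintro _ ⟨a, rfl⟩ _ ⟨b, rfl⟩
    exact hz a b
  have := Algebra.isMulCommutative_adjoin ℚ hcomm
  refine ⟨(Algebra.adjoin ℚ (Set.range z)).val.comp
    (MvPolynomial.aeval (fun a => ⟨z a, Algebra.subset_adjoin ⟨a, rfl⟩⟩)), ?_⟩
  intro a
  rw [AlgHom.comp_apply, MvPolynomial.aeval_X]
  rfl

/-- a subspace stable under the variables is stable under the polynomials -/
lemma stable_of_X {ι X : Type} [AddCommGroup X] [Module ℚ X]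
    (φ : MvPolynomial ι ℚ →ₐ[ℚ] Module.End ℚ X) (B : Submodule ℚ X)
    (hB : ∀ a, ∀ x ∈ B, φ (MvPolynomial.X a) x ∈ B) (P : MvPolynomial ι ℚ) :
    ∀ x ∈ B, φ P x ∈ B := by
  induction P using MvPolynomial.induction_on with
  | C r =>
    intro x hx
    have : φ (MvPolynomial.C r) = algebraMap ℚ (Module.End ℚ X) r := by
      rw [← MvPolynomial.algebraMap_eq]
      exact φ.commutes r
    rw [this, Module.algebraMap_end_apply]
    exact B.smul_mem _ hx
  | add p q hp hq =>
    intro x hx
    rw [map_add, LinearMap.add_apply]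
    exact B.add_mem (hp x hx) (hq x hx)
  | mul_X p a hp =>
    intro x hx
    rw [map_mul, Module.End.mul_apply]
    exact hp _ (hB a x hx)

/-- weight spaces of a commuting family are independent -/
lemma mem_of_mem_iSup {A X : Type} [AddCommGroup X] [Module ℚ X] (h : A → Module.End ℚ X)
    (W P : (A → ℤ) → Submodule ℚ X) (hW : ∀ ν, ∀ x ∈ W ν, ∀ a, h a x = (ν a : ℚ) • x)
    (hP : ∀ ν, P ν ≤ W ν) (μ : A → ℤ) (x : X) (hx : x ∈ W μ) (hx2 : x ∈ ⨆ ν, P ν) : x ∈ P μ := by
  classical
  -- operators separating weights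
  have hT : ∀ s : Finset (A → ℤ), μ ∉ s → ∃ T : Module.End ℚ X, ∃ c : (A → ℤ) → ℚ,
      (∀ ν, ∀ x ∈ W ν, T x = c ν • x) ∧ c μ = 1 ∧ ∀ ν ∈ s, c ν = 0 := by
    intro s
    induction s using Finset.induction_on with
    | empty =>
      intro _
      exact ⟨1, fun _ => 1, fun ν x _ => by simp, rfl, by simp⟩
    | insert ν s hν ih =>
      intro hμ
      rw [Finset.mem_insert, not_or] at hμ
      obtain ⟨T, c, h1, h2, h3⟩ := ih hμ.2
      have hne : ∃ a, μ a ≠ ν a := by
        by_contra hcon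
        push Not at hcon
        exact hμ.1 (funext hcon)
      obtain ⟨a, ha⟩ := hne
      have hne2 : ((μ a : ℚ) - (ν a : ℚ)) ≠ 0 := by
        rw [sub_ne_zero]
        exact_mod_cast ha
      refine ⟨((μ a : ℚ) - (ν a : ℚ))⁻¹ • (T * (h a - (ν a : ℚ) • (1 : Module.End ℚ X))),
        fun κ => ((μ a : ℚ) - (ν a : ℚ))⁻¹ * (c κ * ((κ a : ℚ) - (ν a : ℚ))), ?_, ?_, ?_⟩
      · intro κ x hx
        rw [LinearMap.smul_apply, Module.End.mul_apply, LinearMap.sub_apply, LinearMap.smul_apply,
          Module.End.one_apply, hW κ x hx a, ← sub_smul, map_smul, h1 κ x hx, smul_smul, smul_smul]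
        congr 1
        ring
      · simp only [h2]
        field_simp
      · intro κ hκ
        rw [Finset.mem_insert] at hκ
        rcases hκ with rfl | hκ
        · simp
        · simp [h3 κ hκ]
  have key : ∃ s : Finset (A → ℤ), μ ∉ s ∧ ∃ y ∈ P μ, ∀ (T : Module.End ℚ X) (c : (A → ℤ) → ℚ),
      (∀ ν, ∀ x ∈ W ν, T x = c ν • x) → c μ = 1 → (∀ ν ∈ s, c ν = 0) → T x = y := by
    refine Submodule.iSup_induction P (motive := fun x => ∃ s : Finset (A → ℤ), μ ∉ s ∧
      ∃ y ∈ P μ, ∀ (T : Module.End ℚ X) (c : (A → ℤ) → ℚ),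
      (∀ ν, ∀ x ∈ W ν, T x = c ν • x) → c μ = 1 → (∀ ν ∈ s, c ν = 0) → T x = y) hx2 ?_ ?_ ?_
    · intro ν w hw
      by_cases hν : ν = μ
      · rw [hν] at hw
        refine ⟨∅, by simp, w, hw, ?_⟩
        intro T c h1 h2 _
        rw [h1 μ w (hP μ hw), h2, one_smul]
      · refine ⟨{ν}, ?_, 0, Submodule.zero_mem _, ?_⟩
        · rw [Finset.mem_singleton]
          exact fun hcon => hν hcon.symm
        · intro T c h1 _ h3
          rw [h1 ν w (hP ν hw), h3 ν (Finset.mem_singleton_self ν), zero_smul]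
    · exact ⟨∅, by simp, 0, Submodule.zero_mem _, fun T c _ _ _ => map_zero T⟩
    · rintro x x' ⟨s, hs, y, hy, h⟩ ⟨s', hs', y', hy', h'⟩
      refine ⟨s ∪ s', ?_, y + y', Submodule.add_mem _ hy hy', ?_⟩
      · rw [Finset.mem_union, not_or]
        exact ⟨hs, hs'⟩
      · intro T c h1 h2 h3
        rw [map_add, h T c h1 h2 (fun ν hν => h3 ν (Finset.mem_union_left _ hν)),
          h' T c h1 h2 (fun ν hν => h3 ν (Finset.mem_union_right _ hν))]
  obtain ⟨s, hs, y, hy, hyT⟩ := key
  obtain ⟨T, c, h1, h2, h3⟩ := hT s hs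
  have h4 := hyT T c h1 h2 h3
  rw [h1 μ x hx, h2, one_smul] at h4
  rw [h4]
  exact hy

section noe

variable {A J C X : Type} [DecidableEq A] [Fintype A] [DecidableEq J] [DecidableEq C] [Fintype C]
  [AddCommGroup X] [Module ℚ X] {R : Dat A J} {O : Ops A J C X} {M : Submodule ℚ X}

lemma sum_single (b : A) (μ : A → ℤ) : ∑ a, (μ - (Pi.single b 1 : A → ℤ)) a = ∑ a, μ a - 1 := by
  simp only [Pi.sub_apply, Finset.sum_sub_distrib]
  congr 1
  rw [Finset.sum_pi_single']
  simp

lemma sum_single_add (b : A) (μ : A → ℤ) :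
    ∑ a, (μ + (Pi.single b 1 : A → ℤ)) a = ∑ a, μ a + 1 := by
  simp only [Pi.add_apply, Finset.sum_add_distrib]
  congr 1
  rw [Finset.sum_pi_single']
  simp

lemma tens_Z_apply (a : A) (c : C) (g : A × C → X) (p : A × C) :
    (tens R O).Z a c g p = O.Z a c (g p) := rfl

lemma tens_h_apply (a : A) (g : A × C → X) (p : A × C) :
    (tens R O).h a g p = O.h a (g p) + (if p.1 = a then g p else 0) := by
  show (O.h a ∘ₗ (LinearMap.proj p : (A × C → X) →ₗ[ℚ] X) +
    (if p.1 = a then (LinearMap.proj p : (A × C → X) →ₗ[ℚ] X) else 0)) g = _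
  rw [LinearMap.add_apply]
  split_ifs <;> simp

/-- multiplication by a variable changes the weight -/
lemma tens_Z_mem_W (hR : Rels R O) (b : A) (c : C) (μ : A → ℤ) (g : A × C → X)
    (hg : g ∈ (tens R O).W μ) : (tens R O).Z b c g ∈ (tens R O).W (μ + Pi.single b 1) := by
  intro a
  funext p
  have h1 := congrFun (hg a) p
  rw [tens_h_apply, Pi.smul_apply] at h1
  rw [tens_h_apply, Pi.smul_apply, tens_Z_apply]
  have h3 := LinearMap.congr_fun (hR.hZ a b c) (g p)
  rw [Module.End.mul_apply, LinearMap.add_apply, Module.End.mul_apply] at h3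
  have h4 : O.h a (g p) = (μ a : ℚ) • g p - (if p.1 = a then g p else 0) := by
    rw [← h1]
    abel
  rw [h3, h4, map_sub, map_smul]
  have h5 : O.Z b c (if p.1 = a then g p else 0) = if p.1 = a then O.Z b c (g p) else 0 := by
    split_ifs <;> simp
  rw [h5]
  have h6 : (((μ + (Pi.single b 1 : A → ℤ)) a : ℤ) : ℚ) = (μ a : ℚ) + (if a = b then 1 else 0) := by
    rw [Pi.add_apply, Pi.single_apply]
    push_cast
    split_ifs <;> simp
  rw [h6, add_smul]
  by_cases hab : a = b
  · rw [if_pos hab, if_pos hab, one_smul]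
    abel
  · rw [if_neg hab, if_neg hab, zero_smul, LinearMap.zero_apply]
    abel

lemma tens_Z_mem_ker (hG : Good R O M) (b : A) (c : C) (g : A × C → X)
    (hg : g ∈ kerM O M) : (tens R O).Z b c g ∈ kerM O M := by
  obtain ⟨h1, h2⟩ := hg
  refine ⟨fun p => hG.Zst b c _ (h1 p), ?_⟩
  have h3 : ∀ p : A × C, O.Z p.1 p.2 ((tens R O).Z b c g p) = O.Z b c (O.Z p.1 p.2 (g p)) := by
    intro p
    rw [tens_Z_apply]
    exact LinearMap.congr_fun (hG.rels.ZZ p.1 p.2 b c) (g p)
  simp only [h3]
  rw [← map_sum, h2, map_zero]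

end noe

/-- finite generation over the polynomial ring -/
lemma fg_M {A J C X : Type} [DecidableEq A] [Fintype A] [DecidableEq J] [DecidableEq C] [Fintype C]
    [AddCommGroup X] [Module ℚ X] {R : Dat A J} {O : Ops A J C X} {M : Submodule ℚ X}
    (hG : Good R O M) :
    ∃ s : Finset X, (s : Set X) ⊆ M ∧ ∀ B : Submodule ℚ X, (s : Set X) ⊆ B →
      (∀ a c, ∀ x ∈ B, O.Z a c x ∈ B) → M ≤ B := by
  classical
  obtain ⟨c0, hc0⟩ := hG.bdd
  obtain ⟨d, hd⟩ := hG.gen
  have hfin : ∀ μ, ∃ s : Finset X, Submodule.span ℚ (s : Set X) = M ⊓ O.W μ := by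
    intro μ
    have := hG.fin μ
    exact (Module.Finite.iff_fg.mp this)
  choose s hs using hfin
  let F : Finset (A → ℤ) := Fintype.piFinset (fun _ => Finset.Icc (-c0) (d + |c0| * Fintype.card A))
  refine ⟨F.biUnion s, ?_, ?_⟩
  · intro x hx
    rw [Finset.coe_biUnion, Set.mem_iUnion₂] at hx
    obtain ⟨μ, _, hx⟩ := hx
    have : x ∈ M ⊓ O.W μ := by
      rw [← hs μ]
      exact Submodule.subset_span hx
    exact this.1
  · intro B hB hZ
    have key : ∀ N : ℕ, ∀ μ : A → ℤ, ∑ a, μ a ≤ d + N → M ⊓ O.W μ ≤ B := by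
      intro N
      induction N with
      | zero =>
        intro μ hμ
        by_cases hbot : M ⊓ O.W μ = ⊥
        · rw [hbot]
          exact bot_le
        have h1 := hc0 μ hbot
        have hF : μ ∈ F := by
          rw [Fintype.mem_piFinset]
          intro a
          rw [Finset.mem_Icc]
          refine ⟨h1 a, ?_⟩
          have h4 : μ a + ∑ b ∈ Finset.univ.erase a, μ b = ∑ b, μ b :=
            Finset.add_sum_erase _ _ (Finset.mem_univ _)
          have h5 : (Finset.univ.erase a).card • (-|c0|) ≤ ∑ b ∈ Finset.univ.erase a, μ b := by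
            refine Finset.card_nsmul_le_sum _ _ _ (fun b _ => ?_)
            have := h1 b
            have := le_abs_self c0
            linarith
          have h6 : (Finset.univ.erase a).card = Fintype.card A - 1 := by
            rw [Finset.card_erase_of_mem (Finset.mem_univ _), Finset.card_univ]
          have h7 : 1 ≤ Fintype.card A := Fintype.card_pos_iff.mpr ⟨a⟩
          rw [h6, nsmul_eq_mul, Nat.cast_sub h7] at h5
          have h8 : (0 : ℤ) ≤ |c0| := abs_nonneg c0
          push_cast at h5 hμ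
          nlinarith
        rw [← hs μ, Submodule.span_le]
        intro x hx
        apply hB
        rw [Finset.coe_biUnion, Set.mem_iUnion₂]
        exact ⟨μ, hF, hx⟩
      | succ N ih =>
        intro μ hμ
        by_cases hμd : ∑ a, μ a ≤ d + N
        · exact ih μ hμd
        push Not at hμd
        have hνd : d < ∑ a, μ a := by
          have : (0 : ℤ) ≤ N := Int.natCast_nonneg N
          linarith
        refine (hd μ hνd).trans (iSup_le fun p => ?_)
        rintro _ ⟨x, hx, rfl⟩
        refine hZ _ _ _ (ih (μ - Pi.single p.1 1) ?_ hx)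
        rw [sum_single]
        push_cast at hμ
        linarith
    refine hG.span.trans (iSup_le fun μ => key (∑ a, μ a - d).toNat μ ?_)
    have := Int.self_le_toNat (∑ a, μ a - d)
    linarith

theorem t_NOE : S_NOE := by
  classical
  intro A J C X _ _ _ _ _ _ _ R O M hG
  obtain ⟨φ, hφ⟩ := exists_hom (fun p : A × C => O.Z p.1 p.2)
    (fun p q => hG.rels.ZZ p.1 p.2 q.1 q.2)
  letI : Module (MvPolynomial (A × C) ℚ) X := Module.compHom X φ.toRingHom
  have hsm : ∀ (P : MvPolynomial (A × C) ℚ) (x : X), P • x = φ P x := fun P x => rfl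
  have hC : ∀ (r : ℚ) (x : X), (MvPolynomial.C r : MvPolynomial (A × C) ℚ) • x = r • x := by
    intro r x
    rw [hsm, ← MvPolynomial.algebraMap_eq, AlgHom.commutes, Module.algebraMap_end_apply]
  have hX : ∀ (p : A × C) (x : X), (MvPolynomial.X p : MvPolynomial (A × C) ℚ) • x
      = O.Z p.1 p.2 x := by
    intro p x
    rw [hsm, hφ]
  -- M as a module over the polynomial ring
  let MS : Submodule (MvPolynomial (A × C) ℚ) X :=
    { carrier := M
      add_mem' := fun hx hy => M.add_mem hx hy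
      zero_mem' := M.zero_mem
      smul_mem' := fun P x hx => stable_of_X φ M (fun p x hx => by
        rw [hφ]
        exact hG.Zst p.1 p.2 x hx) P x hx }
  have hMS : MS.FG := by
    obtain ⟨s, hs, hs2⟩ := fg_M hG
    refine ⟨s, le_antisymm (Submodule.span_le.mpr hs) ?_⟩
    let B : Submodule ℚ X :=
      { carrier := Submodule.span (MvPolynomial (A × C) ℚ) (s : Set X)
        add_mem' := fun hx hy => Submodule.add_mem _ hx hy
        zero_mem' := Submodule.zero_mem _
        smul_mem' := fun r x hx => by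
          rw [SetLike.mem_coe] at *
          rw [← hC]
          exact Submodule.smul_mem _ _ hx }
    have h1 : M ≤ B := hs2 B (fun x hx => Submodule.subset_span hx) (fun a c x hx => by
      have h2 := Submodule.smul_mem (Submodule.span (MvPolynomial (A × C) ℚ) (s : Set X))
        (MvPolynomial.X (a, c)) hx
      rw [hX] at h2
      exact h2)
    exact h1
  -- functions with values in M
  let NS : Submodule (MvPolynomial (A × C) ℚ) (A × C → X) := Submodule.pi Set.univ (fun _ => MS)
  have hNS : NS.FG := Submodule.fg_pi (fun _ => hMS)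
  have hNoeth : IsNoetherian (MvPolynomial (A × C) ℚ) NS := isNoetherian_of_fg_of_noetherian NS hNS
  -- the span of the homogeneous elements of the kernel
  let G : Set (A × C → X) := ⋃ ν : A → ℤ, ((kerM O M ⊓ (tens R O).W ν : Submodule ℚ _) : Set _)
  have hGN : Submodule.span (MvPolynomial (A × C) ℚ) G ≤ NS := by
    rw [Submodule.span_le]
    intro g hg
    rw [Set.mem_iUnion] at hg
    obtain ⟨ν, hg⟩ := hg
    intro p _
    exact hg.1.1 p
  have hGfg : (Submodule.span (MvPolynomial (A × C) ℚ) G).FG :=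
    isNoetherian_submodule.mp hNoeth _ hGN
  rw [Submodule.fg_span_iff_fg_span_finset_subset] at hGfg
  obtain ⟨s, hsG, hs⟩ := hGfg
  have hch : ∀ g : A × C → X, ∃ ν : A → ℤ, g ∈ G → g ∈ kerM O M ⊓ (tens R O).W ν := by
    intro g
    by_cases hg : g ∈ G
    · rw [Set.mem_iUnion] at hg
      obtain ⟨ν, hν⟩ := hg
      exact ⟨ν, fun _ => hν⟩
    · exact ⟨0, fun h => absurd h hg⟩
  choose wt hwt using hch
  obtain ⟨d, hd⟩ : ∃ d : ℤ, ∀ g ∈ s, ∑ a, wt g a ≤ d := by
    obtain ⟨d, hd⟩ := (s.image (fun g => ∑ a, wt g a)).bddAbove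
    exact ⟨d, fun g hg => hd (Finset.mem_coe.mpr (Finset.mem_image_of_mem _ hg))⟩
  refine ⟨d, ?_⟩
  intro μ hμ g hg
  let P : (A → ℤ) → Submodule ℚ (A × C → X) := fun ν =>
    if ∑ a, ν a ≤ d then kerM O M ⊓ (tens R O).W ν else
      ⨆ p : A × C, (kerM O M ⊓ (tens R O).W (ν - Pi.single p.1 1)).map ((tens R O).Z p.1 p.2)
  have hPle : ∀ ν, P ν ≤ kerM O M ⊓ (tens R O).W ν := by
    intro ν
    by_cases hν : ∑ a, ν a ≤ d
    · simp only [P, if_pos hν, le_refl]
    · simp only [P, if_neg hν]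
      refine iSup_le fun p => ?_
      rintro _ ⟨x, hx, rfl⟩
      refine ⟨tens_Z_mem_ker hG _ _ _ hx.1, ?_⟩
      have := tens_Z_mem_W hG.rels p.1 p.2 _ x hx.2
      rwa [sub_add_cancel] at this
  have hPZ : ∀ ν, ∀ x ∈ P ν, ∀ p : A × C, (tens R O).Z p.1 p.2 x ∈ P (ν + Pi.single p.1 1) := by
    intro ν x hx p
    have hx2 := hPle ν hx
    by_cases hν : ∑ a, (ν + (Pi.single p.1 1 : A → ℤ)) a ≤ d
    · simp only [P, if_pos hν]
      exact ⟨tens_Z_mem_ker hG _ _ _ hx2.1, tens_Z_mem_W hG.rels _ _ _ _ hx2.2⟩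
    · simp only [P, if_neg hν]
      refine Submodule.mem_iSup_of_mem p ⟨x, ?_, rfl⟩
      rw [add_sub_cancel_right]
      exact hx2
  have hBZ : ∀ p : A × C, ∀ x ∈ ⨆ ν, P ν, (tens R O).Z p.1 p.2 x ∈ ⨆ ν, P ν := by
    intro p x hx
    refine Submodule.iSup_induction P (motive := fun x => (tens R O).Z p.1 p.2 x ∈ ⨆ ν, P ν) hx
      ?_ ?_ ?_
    · intro ν x hx
      exact Submodule.mem_iSup_of_mem _ (hPZ ν x hx p)
    · rw [map_zero]
      exact Submodule.zero_mem _
    · intro x y hx hy
      rw [map_add]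
      exact Submodule.add_mem _ hx hy
  have hBS : ∀ (Q : MvPolynomial (A × C) ℚ), ∀ x ∈ ⨆ ν, P ν, Q • x ∈ ⨆ ν, P ν := by
    intro Q
    induction Q using MvPolynomial.induction_on with
    | C r =>
      intro x hx
      have h1 : (MvPolynomial.C r : MvPolynomial (A × C) ℚ) • x = r • x := by
        funext p
        rw [Pi.smul_apply, Pi.smul_apply, hC]
      rw [h1]
      exact Submodule.smul_mem _ _ hx
    | add p q hp hq =>
      intro x hx
      rw [add_smul]
      exact Submodule.add_mem _ (hp x hx) (hq x hx)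
    | mul_X q p hq =>
      intro x hx
      rw [mul_smul]
      have h1 : (MvPolynomial.X p : MvPolynomial (A × C) ℚ) • x = (tens R O).Z p.1 p.2 x := by
        funext r
        rw [Pi.smul_apply, hX, tens_Z_apply]
      rw [h1]
      exact hq _ (hBZ p x hx)
  let BS : Submodule (MvPolynomial (A × C) ℚ) (A × C → X) :=
    { carrier := ((⨆ ν, P ν : Submodule ℚ (A × C → X)) : Set (A × C → X))
      add_mem' := fun hx hy => Submodule.add_mem _ hx hy
      zero_mem' := Submodule.zero_mem _
      smul_mem' := fun Q x hx => hBS Q x hx }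
  have hsB : Submodule.span (MvPolynomial (A × C) ℚ) (s : Set (A × C → X)) ≤ BS := by
    rw [Submodule.span_le]
    intro x hx
    have h1 := hwt x (hsG hx)
    have h2 := hd x (Finset.mem_coe.mp hx)
    refine Submodule.mem_iSup_of_mem (wt x) ?_
    simp only [P, if_pos h2]
    exact h1
  have hgB : g ∈ ⨆ ν, P ν := by
    have h1 : g ∈ Submodule.span (MvPolynomial (A × C) ℚ) G :=
      Submodule.subset_span (Set.mem_iUnion.mpr ⟨μ, hg⟩)
    rw [hs] at h1
    exact hsB h1
  have hfin := mem_of_mem_iSup (tens R O).h (tens R O).W P (fun ν x hx a => hx a)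
    (fun ν => (hPle ν).trans inf_le_right) μ g hg.2 hgB
  have hμ' : ¬ ∑ a, μ a ≤ d := not_le.mpr hμ
  simp only [P, if_neg hμ'] at hfin
  exact hfin

end Pool.Agent.Q198.SK
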