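import Pool.Agent.Q178.SK.Dim
import Pool.Agent.Q151.SK.PRK
import Pool.Agent.Q198.SK.NOE

/-!
# Lemma job GEN: the induced module is finitely generated
(project of helper160, frozen statement S10395)
-/

set_option autoImplicit false
set_option linter.unusedSectionVars false

namespace Pool.Agent.Q198.SK

open Pool.Agent.Q160.SK Pool.Agent.Q178.SK Pool.Agent.Q151.SK

section gen

variable {A J C X : Type} [DecidableEq A] [Fintype A] [DecidableEq J] [DecidableEq C] [Fintype C]
  [AddCommGroup X] [Module ℚ X] {R : Dat A J} {O : Ops A J C X} {M : Submodule ℚ X} {i : J}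

/-- the lowering operator on the tensor product -/
noncomputable def tF (R : Dat A J) (i : J) (C X : Type) [DecidableEq C] [Fintype C]
    [AddCommGroup X] [Module ℚ X] : Module.End ℚ (A × C → (ℕ →₀ X)) :=
  LinearMap.pi (fun p => (-dd : Module.End ℚ (ℕ →₀ X)) ∘ₗ
      (LinearMap.proj p : (A × C → (ℕ →₀ X)) →ₗ[ℚ] (ℕ →₀ X)) +
    (if p.1 = R.src i then (LinearMap.proj (R.tgt i, p.2) : (A × C → (ℕ →₀ X)) →ₗ[ℚ] (ℕ →₀ X))
      else 0))

lemma tF_apply (g : A × C → (ℕ →₀ X)) (p : A × C) :
    tF R i C X g p = (-dd : Module.End ℚ (ℕ →₀ X)) (g p)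
      + (if p.1 = R.src i then g (R.tgt i, p.2) else 0) := by
  unfold tF
  simp only [LinearMap.pi_apply, LinearMap.add_apply]
  split_ifs <;> simp

lemma EF_ap (hR : Rels R O) (i : J) (u : ℕ →₀ X) :
    (ind R O i).e i ((-dd : Module.End ℚ (ℕ →₀ X)) u)
      = (-dd : Module.End ℚ (ℕ →₀ X)) ((ind R O i).e i u)
        + ((ind R O i).h (R.tgt i) u - (ind R O i).h (R.src i) u) :=
  LinearMap.congr_fun (sli_EF hR i) u

lemma HE_ap (hR : Rels R O) (i : J) (u : ℕ →₀ X) :
    (ind R O i).h (R.tgt i) ((ind R O i).e i u) - (ind R O i).h (R.src i) ((ind R O i).e i u)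
      = (ind R O i).e i ((ind R O i).h (R.tgt i) u) - (ind R O i).e i ((ind R O i).h (R.src i) u)
        + (2 : ℚ) • (ind R O i).e i u := by
  have h := LinearMap.congr_fun (sli_HE hR i) u
  simp only [Module.End.mul_apply, LinearMap.sub_apply, LinearMap.add_apply, LinearMap.smul_apply,
    map_sub] at h
  exact h

lemma HF_ap (hR : Rels R O) (i : J) (u : ℕ →₀ X) :
    (ind R O i).h (R.tgt i) ((-dd : Module.End ℚ (ℕ →₀ X)) u)
      - (ind R O i).h (R.src i) ((-dd : Module.End ℚ (ℕ →₀ X)) u)
      = (-dd : Module.End ℚ (ℕ →₀ X)) ((ind R O i).h (R.tgt i) u)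
        - (-dd : Module.End ℚ (ℕ →₀ X)) ((ind R O i).h (R.src i) u)
        - (2 : ℚ) • (-dd : Module.End ℚ (ℕ →₀ X)) u := by
  have h := LinearMap.congr_fun (sli_HF hR i) u
  rw [Module.End.mul_apply, LinearMap.sub_apply, LinearMap.sub_apply, Module.End.mul_apply,
    LinearMap.smul_apply, LinearMap.sub_apply, map_sub] at h
  exact h

lemma tens_EF (hR : Rels R O) (i : J) :
    (tens R (ind R O i)).e i * tF R i C X = tF R i C X * (tens R (ind R O i)).e i
      + ((tens R (ind R O i)).h (R.tgt i) - (tens R (ind R O i)).h (R.src i)) := by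
  have hne : ¬ R.src i = R.tgt i := R.ne i
  have hne2 : ¬ R.tgt i = R.src i := fun h => hne h.symm
  refine LinearMap.ext fun g => funext fun p => ?_
  obtain ⟨a, c⟩ := p
  rw [Module.End.mul_apply, LinearMap.add_apply, LinearMap.sub_apply, Module.End.mul_apply,
    Pi.add_apply, Pi.sub_apply, tens_e, tF_apply, tF_apply, tens_h, tens_h, tF_apply, tens_e,
    tens_e]
  simp only
  by_cases h1 : a = R.tgt i
  · subst h1
    simp only [if_true, if_neg hne2, if_neg hne, add_zero, map_add]
    rw [EF_ap hR]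
    abel
  · by_cases h2 : a = R.src i
    · subst h2
      simp only [if_true, if_neg hne2, if_neg hne, add_zero, map_add]
      rw [EF_ap hR]
      abel
    · simp only [if_neg h1, if_neg h2, add_zero]
      rw [EF_ap hR]

lemma tens_HE (hR : Rels R O) (i : J) :
    ((tens R (ind R O i)).h (R.tgt i) - (tens R (ind R O i)).h (R.src i))
        * (tens R (ind R O i)).e i
      = (tens R (ind R O i)).e i
        * ((tens R (ind R O i)).h (R.tgt i) - (tens R (ind R O i)).h (R.src i))
        + (2 : ℚ) • (tens R (ind R O i)).e i := by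
  have hne : ¬ R.src i = R.tgt i := R.ne i
  have hne2 : ¬ R.tgt i = R.src i := fun h => hne h.symm
  refine LinearMap.ext fun g => funext fun p => ?_
  obtain ⟨a, c⟩ := p
  have key := sub_eq_iff_eq_add.mp (HE_ap hR i (g (a, c)))
  rw [Module.End.mul_apply, LinearMap.add_apply, Module.End.mul_apply, LinearMap.smul_apply,
    LinearMap.sub_apply, LinearMap.sub_apply, map_sub, Pi.sub_apply, Pi.add_apply, Pi.sub_apply,
    Pi.smul_apply]
  simp only [tens_e, tens_h]
  by_cases h1 : a = R.tgt i
  · subst h1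
    simp only [if_true, if_neg hne2, if_neg hne, add_zero, map_add, smul_add]
    rw [key]
    module
  · by_cases h2 : a = R.src i
    · subst h2
      simp only [if_true, if_neg hne, add_zero, map_add]
      rw [key]
      module
    · simp only [if_neg h1, if_neg h2, add_zero]
      rw [key]
      module

lemma tens_HF (hR : Rels R O) (i : J) :
    ((tens R (ind R O i)).h (R.tgt i) - (tens R (ind R O i)).h (R.src i)) * tF R i C X
      = tF R i C X * ((tens R (ind R O i)).h (R.tgt i) - (tens R (ind R O i)).h (R.src i))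
        - (2 : ℚ) • tF R i C X := by
  have hne : ¬ R.src i = R.tgt i := R.ne i
  have hne2 : ¬ R.tgt i = R.src i := fun h => hne h.symm
  refine LinearMap.ext fun g => funext fun p => ?_
  obtain ⟨a, c⟩ := p
  have key := sub_eq_iff_eq_add.mp (HF_ap hR i (g (a, c)))
  rw [Module.End.mul_apply, LinearMap.sub_apply, LinearMap.sub_apply, Module.End.mul_apply,
    LinearMap.smul_apply, LinearMap.sub_apply, map_sub, Pi.sub_apply, Pi.sub_apply, Pi.sub_apply,
    Pi.smul_apply]
  simp only [tF_apply, tens_h]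
  by_cases h1 : a = R.tgt i
  · subst h1
    simp only [if_true, if_neg hne2, add_zero, map_add]
    rw [key]
    module
  · by_cases h2 : a = R.src i
    · subst h2
      simp only [if_true, if_neg hne, if_neg hne2, add_zero, map_add, smul_add]
      rw [key]
      module
    · simp only [if_neg h1, if_neg h2, add_zero]
      rw [key]
      module

lemma tens_e_pow_ne (p : A × C) (hp : p.1 ≠ R.tgt i) (n : ℕ) (g : A × C → X) :
    ((tens R O).e i ^ n) g p = (O.e i ^ n) (g p) := by
  induction n with
  | zero => simp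
  | succ n ih =>
    rw [pow_succ', Module.End.mul_apply, tens_e, if_neg hp, add_zero, ih, pow_succ',
      Module.End.mul_apply]

lemma tens_e_pow_tgt (c : C) (n : ℕ) (g : A × C → X) :
    ((tens R O).e i ^ (n + 1)) g (R.tgt i, c) = (O.e i ^ (n + 1)) (g (R.tgt i, c))
      + ((n : ℚ) + 1) • (O.e i ^ n) (g (R.src i, c)) := by
  induction n with
  | zero =>
    rw [zero_add, pow_one, tens_e]
    simp
  | succ n ih =>
    rw [pow_succ', Module.End.mul_apply, tens_e, ih]
    simp only [if_true]
    rw [tens_e_pow_ne (R.src i, c) (R.ne i), map_add, map_smul, ← Module.End.mul_apply (O.e i),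
      ← pow_succ', ← Module.End.mul_apply (O.e i), ← pow_succ']
    push_cast
    module

lemma coef0_pow (n : ℕ) (f : A × C → (ℕ →₀ X)) (p : A × C) :
    (((tens R (ind R O i)).e i ^ n) f p) 0 = ((tens R O).e i ^ n) (fun q => f q 0) p := by
  induction n generalizing p with
  | zero => simp
  | succ n ih =>
    rw [pow_succ', Module.End.mul_apply, tens_e, Finsupp.add_apply, e_coef0, ih, pow_succ',
      Module.End.mul_apply, tens_e]
    congr 1
    by_cases hp : p.1 = R.tgt i
    · rw [if_pos hp, if_pos hp, ih]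
    · rw [if_neg hp, if_neg hp, Finsupp.zero_apply]

lemma zero_of_tF (u : A × C → (ℕ →₀ X)) (h : tF R i C X u = 0) (h0 : ∀ p, u p 0 = 0) : u = 0 := by
  have h1 : ∀ p : A × C, p.1 ≠ R.src i → u p = 0 := by
    intro p hp
    have h2 := congrFun h p
    rw [tF_apply, if_neg hp, add_zero, Pi.zero_apply] at h2
    have h3 := eq_single_of_dd _ h2
    rw [h3, h0 p, Finsupp.single_zero]
  funext p
  by_cases hp : p.1 = R.src i
  · have h2 := congrFun h p
    rw [tF_apply, if_pos hp, h1 (R.tgt i, p.2) (R.ne i).symm, add_zero, Pi.zero_apply] at h2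
    have h3 := eq_single_of_dd _ h2
    rw [h3, h0 p, Finsupp.single_zero]
    rfl
  · exact h1 p hp

lemma mem_tens_W (μ : A → ℤ) (g : A × C → X) (hg : ∀ p, g p ∈ O.W (μ - Pi.single p.1 1)) :
    g ∈ (tens R O).W μ := by
  intro a
  funext p
  rw [tens_h, Pi.smul_apply, hg p a]
  by_cases h : p.1 = a
  · subst h
    simp [sub_smul]
  · rw [if_neg h, Pi.sub_apply, Pi.single_eq_of_ne (Ne.symm h), sub_zero, add_zero]

lemma single1_mem_W (R : Dat A J) (O : Ops A J C X) (i : J) (μ : A → ℤ) (m : X)
    (hm : m ∈ O.W μ) : (Finsupp.single 1 m : ℕ →₀ X) ∈ (ind R O i).W (μ + R.al i) := by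
  intro a
  rw [h_single, hm a, Pi.add_apply, ← Finsupp.smul_single, ← add_smul]
  congr 1
  push_cast
  ring

/-- multiplication map and the root operator -/
lemma mult_e (hR : Rels R O) (g : A × C → X) :
    ∑ p : A × C, O.Z p.1 p.2 ((tens R O).e i g p) = O.e i (∑ p : A × C, O.Z p.1 p.2 (g p)) := by
  rw [map_sum]
  have h3 : ∀ p : A × C, O.e i (O.Z p.1 p.2 (g p)) = O.Z p.1 p.2 (O.e i (g p)) +
      (if p.1 = R.src i then O.Z (R.tgt i) p.2 (g p) else 0) := by
    intro p
    have h1 := LinearMap.congr_fun (hR.eZ i p.1 p.2) (g p)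
    rw [Module.End.mul_apply, LinearMap.add_apply, Module.End.mul_apply] at h1
    rw [h1]
    split_ifs <;> simp
  rw [Finset.sum_congr rfl fun p _ => h3 p, Finset.sum_add_distrib]
  have h4 : ∀ p : A × C, O.Z p.1 p.2 ((tens R O).e i g p) = O.Z p.1 p.2 (O.e i (g p)) +
      (if p.1 = R.tgt i then O.Z p.1 p.2 (g (R.src i, p.2)) else 0) := by
    intro p
    rw [tens_e, map_add]
    split_ifs <;> simp
  rw [Finset.sum_congr rfl fun p _ => h4 p, Finset.sum_add_distrib]
  congr 1
  rw [sum_row (R.tgt i) (fun x y => O.Z x y (g (R.src i, y))),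
    sum_row (R.src i) (fun x y => O.Z (R.tgt i) y (g (x, y)))]

lemma mult_e_pow (hR : Rels R O) (n : ℕ) (g : A × C → X) :
    ∑ p : A × C, O.Z p.1 p.2 (((tens R O).e i ^ n) g p)
      = (O.e i ^ n) (∑ p : A × C, O.Z p.1 p.2 (g p)) := by
  induction n with
  | zero => simp
  | succ n ih =>
    have h1 := mult_e (i := i) hR (((tens R O).e i ^ n) g)
    rw [ih] at h1
    rw [pow_succ', pow_succ', Module.End.mul_apply]
    exact h1

/-- lifting of lowest weight vectors -/
lemma lift_low (hM : Good R O M) (i : J) (p : ℕ) (ν : A → ℤ)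
    (hν : ν (R.tgt i) - ν (R.src i) = -(p : ℤ)) (g : A × C → X) (hg : ∀ q, g q ∈ M)
    (hgW : g ∈ (tens R O).W ν) (hge : ((tens R O).e i ^ (p + 1)) g = 0) :
    (Finsupp.single 0 (∑ q : A × C, O.Z q.1 q.2 (g q)) : ℕ →₀ X) ∈
      ⨆ q : A × C, (indM R O i M ⊓ (ind R O i).W (ν - Pi.single q.1 1)).map
        ((ind R O i).Z q.1 q.2) := by
  have hne : ¬ R.src i = R.tgt i := R.ne i
  have hne2 : ¬ R.tgt i = R.src i := fun h => hne h.symm
  have hR := hM.rels
  let f : A × C → (ℕ →₀ X) := fun q => Finsupp.single 0 (g q)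
    + (if q.1 = R.src i then Finsupp.single 1 (g (R.tgt i, q.2)) else 0)
  have hf0 : ∀ q, f q 0 = g q := by
    intro q
    simp only [f, Finsupp.add_apply, Finsupp.single_eq_same]
    by_cases hq : q.1 = R.src i
    · rw [if_pos hq]
      simp
    · rw [if_neg hq]
      simp
  -- killed by the lowering operator
  have hF : tF R i C X f = 0 := by
    funext q
    rw [tF_apply, Pi.zero_apply]
    simp only [f]
    by_cases hq : q.1 = R.src i
    · rw [if_pos hq, if_pos hq, if_neg hne2, add_zero, map_add, LinearMap.neg_apply,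
        LinearMap.neg_apply, dd_single, dd_single]
      simp
    · rw [if_neg hq, if_neg hq, add_zero, add_zero, LinearMap.neg_apply, dd_single]
      simp
  -- weights
  have hfW1 : ∀ q, f q ∈ (ind R O i).W (ν - Pi.single q.1 1) := by
    intro q
    have h1 : (Finsupp.single 0 (g q) : ℕ →₀ X) ∈ (ind R O i).W (ν - Pi.single q.1 1) :=
      (single0_mem_W R O i _ _).mpr (tens_W R O ν g hgW q)
    refine Submodule.add_mem _ h1 ?_
    by_cases hq : q.1 = R.src i
    · rw [if_pos hq]
      have h2 := single1_mem_W R O i _ _ (tens_W R O ν g hgW (R.tgt i, q.2))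
      have h3 : ν - Pi.single (R.tgt i) 1 + R.al i = ν - Pi.single q.1 1 := by
        rw [hq]
        funext b
        simp only [Pi.add_apply, Pi.sub_apply, Dat.al, Pi.single_apply]
        ring
      rw [← h3]
      exact h2
    · rw [if_neg hq]
      exact Submodule.zero_mem _
  have hfW : f ∈ (tens R (ind R O i)).W ν := mem_tens_W ν f hfW1
  have hH : ((tens R (ind R O i)).h (R.tgt i) - (tens R (ind R O i)).h (R.src i)) f
      = (-(p : ℚ)) • f := by
    rw [LinearMap.sub_apply, hfW (R.tgt i), hfW (R.src i), ← sub_smul]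
    congr 1
    rw [← Int.cast_sub, hν]
    push_cast
    rfl
  have h1 := sl0 (tens_EF (C := C) hR i) (tens_HE (C := C) hR i) p f hF hH
  have h2 : ((tens R (ind R O i)).e i ^ (p + 1)) f = 0 := by
    refine zero_of_tF _ h1 ?_
    intro q
    rw [coef0_pow]
    have h3 : (fun q => f q 0) = g := funext hf0
    rw [h3, hge]
    rfl
  have h3 : ∀ q, f q ∈ indM R O i M := by
    intro q
    refine ⟨?_, ?_⟩
    · intro k
      simp only [f, Finsupp.add_apply]
      refine M.add_mem ?_ ?_
      · rw [Finsupp.single_apply]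
        split_ifs
        · exact hg q
        · exact M.zero_mem
      · by_cases hq : q.1 = R.src i
        · rw [if_pos hq, Finsupp.single_apply]
          split_ifs
          · exact hg _
          · exact M.zero_mem
        · rw [if_neg hq]
          exact M.zero_mem
    · by_cases hq : q.1 = R.tgt i
      · refine ⟨p + 2, ?_⟩
        obtain ⟨a, c⟩ := q
        simp only at hq
        subst hq
        have h4 := congrFun h2 (R.tgt i, c)
        rw [tens_e_pow_tgt, Pi.zero_apply] at h4
        have h5 := congrFun h2 (R.src i, c)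
        rw [tens_e_pow_ne _ (R.ne i), Pi.zero_apply] at h5
        have h6 := congrArg ((ind R O i).e i) h4
        rw [map_add, map_smul, map_zero, ← Module.End.mul_apply, ← pow_succ',
          ← Module.End.mul_apply, ← pow_succ', h5, smul_zero, add_zero] at h6
        exact h6
      · refine ⟨p + 1, ?_⟩
        rw [← tens_e_pow_ne q hq, h2]
        rfl
  -- the sum
  have h4 : (Finsupp.single 0 (∑ q : A × C, O.Z q.1 q.2 (g q)) : ℕ →₀ X)
      = ∑ q : A × C, (ind R O i).Z q.1 q.2 (f q) := by
    have h5 : ∀ q : A × C, (ind R O i).Z q.1 q.2 (f q) = Finsupp.single 0 (O.Z q.1 q.2 (g q))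
        + (if q.1 = R.src i then Finsupp.single 1 (O.Z (R.src i) q.2 (g (R.tgt i, q.2))) else 0)
        - (if q.1 = R.tgt i then Finsupp.single 1 (O.Z (R.src i) q.2 (g (q.1, q.2))) else 0) := by
      intro q
      obtain ⟨a, c⟩ := q
      simp only [f]
      by_cases h1 : a = R.tgt i
      · subst h1
        rw [if_neg hne2, if_pos rfl, if_neg hne2, add_zero, add_zero, Z_tgt_single]
      · by_cases h2 : a = R.src i
        · subst h2
          rw [if_pos rfl, if_pos rfl, if_neg hne, sub_zero, map_add, Z_ne_single R O i _ hne,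
            Z_ne_single R O i _ hne]
        · rw [if_neg h2, if_neg h2, if_neg h1, add_zero, add_zero, sub_zero,
            Z_ne_single R O i _ h1]
    rw [Finset.sum_congr rfl fun q _ => h5 q, Finset.sum_sub_distrib, Finset.sum_add_distrib,
      sum_row (R.src i) (fun x y => (Finsupp.single 1 (O.Z (R.src i) y (g (R.tgt i, y))) :
        ℕ →₀ X)),
      sum_row (R.tgt i) (fun x y => (Finsupp.single 1 (O.Z (R.src i) y (g (x, y))) : ℕ →₀ X)),
      add_sub_cancel_right, ← Finsupp.single_finset_sum]
  rw [h4]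
  refine Submodule.sum_mem _ fun q _ => ?_
  exact Submodule.mem_iSup_of_mem q ⟨f q, ⟨h3 q, hfW1 q⟩, rfl⟩

/-- extraction of the components -/
lemma exists_comp {ι Y : Type} [Fintype ι] [AddCommGroup Y] [Module ℚ Y] (T : ι → Module.End ℚ Y)
    (N : ι → Submodule ℚ Y) (m : Y) (hm : m ∈ ⨆ q, (N q).map (T q)) :
    ∃ g : ι → Y, (∀ q, g q ∈ N q) ∧ ∑ q, T q (g q) = m := by
  classical
  refine Submodule.iSup_induction (fun q => (N q).map (T q))
    (motive := fun m => ∃ g : ι → Y, (∀ q, g q ∈ N q) ∧ ∑ q, T q (g q) = m) hm ?_ ?_ ?_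
  · rintro q _ ⟨x, hx, rfl⟩
    refine ⟨Pi.single q x, ?_, ?_⟩
    · intro r
      by_cases hr : r = q
      · subst hr
        rw [Pi.single_eq_same]
        exact hx
      · rw [Pi.single_eq_of_ne hr]
        exact Submodule.zero_mem _
    · rw [Finset.sum_eq_single q]
      · rw [Pi.single_eq_same]
      · intro r _ hr
        rw [Pi.single_eq_of_ne hr, map_zero]
      · intro h
        exact absurd (Finset.mem_univ q) h
  · exact ⟨0, fun q => Submodule.zero_mem _, by simp⟩
  · rintro _ _ ⟨g, hg, rfl⟩ ⟨g', hg', rfl⟩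
    refine ⟨g + g', fun q => Submodule.add_mem _ (hg q) (hg' q), ?_⟩
    simp only [Pi.add_apply, map_add, Finset.sum_add_distrib]

end gen


end Pool.Agent.Q198.SK
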