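import Pool.Agent.Q160.SK.Stm

/-!
# Lemma job VAN: vanishing (project of helper160, frozen statement S10395)
-/

set_option autoImplicit false

namespace Pool.Agent.Q198.SK

open Pool.Agent.Q160.SK

section van

variable {A J C X : Type} [DecidableEq A] [Fintype A] [DecidableEq J] [DecidableEq C] [Fintype C]
  [AddCommGroup X] [Module ℚ X] {R : Dat A J} {O : Ops A J C X} {M : Submodule ℚ X} {i : J}

lemma mem_W_iff {O : Ops A J C X} {μ : A → ℤ} {x : X} :
    x ∈ O.W μ ↔ ∀ a, O.h a x = (μ a : ℚ) • x := Iff.rfl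

lemma e_mem (hP : Pre R O i M) {μ : A → ℤ} {x : X} (hx : x ∈ M ⊓ O.W μ) :
    O.e i x ∈ M ⊓ O.W (μ + R.al i) := by
  obtain ⟨h1, h2⟩ := hx
  refine ⟨hP.est x h1, ?_⟩
  rw [SetLike.mem_coe, mem_W_iff] at *
  intro a
  have h3 := LinearMap.congr_fun (hP.he a) x
  rw [Module.End.mul_apply, LinearMap.add_apply, Module.End.mul_apply, LinearMap.smul_apply,
    h2 a, map_smul] at h3
  rw [h3, Pi.add_apply, Int.cast_add, add_smul]

lemma e_pow_mem (hP : Pre R O i M) {μ : A → ℤ} {x : X} (hx : x ∈ M ⊓ O.W μ) (n : ℕ) :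
    (O.e i ^ n) x ∈ M ⊓ O.W (μ + (n : ℤ) • R.al i) := by
  induction n with
  | zero => simpa using hx
  | succ n ih =>
    have h1 := e_mem hP ih
    rw [pow_succ', Module.End.mul_apply]
    have h2 : μ + ((n + 1 : ℕ) : ℤ) • R.al i = μ + (n : ℤ) • R.al i + R.al i := by
      rw [add_assoc]
      congr 1
      push_cast
      rw [add_smul, one_smul]
    rw [h2]
    exact h1

lemma Z_mem (hP : Pre R O i M) {μ : A → ℤ} {x : X} (b : A) (c : C)
    (hx : x ∈ M ⊓ O.W (μ - Pi.single b 1)) : O.Z b c x ∈ M ⊓ O.W μ := by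
  obtain ⟨h1, h2⟩ := hx
  refine ⟨hP.Zst b c x h1, ?_⟩
  rw [SetLike.mem_coe, mem_W_iff] at *
  intro a
  have h3 := LinearMap.congr_fun (hP.hZ a b c) x
  rw [Module.End.mul_apply, LinearMap.add_apply, Module.End.mul_apply, h2 a, map_smul] at h3
  rw [h3]
  by_cases hab : a = b
  · subst hab
    rw [if_pos rfl]
    have h4 : (μ - (Pi.single a 1 : A → ℤ)) a = μ a - 1 := by simp
    rw [h4]
    push_cast
    rw [sub_smul, one_smul]
    abel
  · rw [if_neg hab]
    have h4 : (μ - (Pi.single b 1 : A → ℤ)) a = μ a := by simp [hab]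
    rw [h4, LinearMap.zero_apply, add_zero]

lemma pow_Z (hP : Pre R O i M) (a : A) (c : C) (ha : a ≠ R.src i) (n : ℕ) (x : X) :
    (O.e i ^ n) (O.Z a c x) = O.Z a c ((O.e i ^ n) x) := by
  have h1 : Commute (O.e i) (O.Z a c) := by
    have := hP.eZ a c
    rw [if_neg ha, add_zero] at this
    exact this
  have h2 := h1.pow_left n
  exact LinearMap.congr_fun h2.eq x

lemma pow_Zs (hP : Pre R O i M) (c : C) (n : ℕ) (x : X) :
    (O.e i ^ (n + 1)) (O.Z (R.src i) c x) = O.Z (R.src i) c ((O.e i ^ (n + 1)) x)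
      + ((n : ℚ) + 1) • O.Z (R.tgt i) c ((O.e i ^ n) x) := by
  induction n with
  | zero =>
    have h := LinearMap.congr_fun (hP.eZ (R.src i) c) x
    rw [if_pos rfl] at h
    simpa using h
  | succ n ih =>
    rw [pow_succ', Module.End.mul_apply, ih, map_add, map_smul]
    have h := LinearMap.congr_fun (hP.eZ (R.src i) c) ((O.e i ^ (n + 1)) x)
    rw [if_pos rfl, Module.End.mul_apply, LinearMap.add_apply, Module.End.mul_apply] at h
    have h' := pow_Z hP (R.tgt i) c (R.ne i).symm 1 ((O.e i ^ n) x)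
    rw [pow_one] at h'
    rw [h, h']
    rw [← Module.End.mul_apply (O.e i) (O.e i ^ (n + 1)), ← pow_succ',
      ← Module.End.mul_apply (O.e i) (O.e i ^ n), ← pow_succ']
    push_cast
    module

/-- the equation is solvable for the generators -/
lemma van_step (hP : Pre R O i M) (p : ℕ) (μ : A → ℤ)
    (ihp : ∀ a, ∀ y ∈ M ⊓ O.W (μ - Pi.single a 1 + ((p : ℤ) + 1) • R.al i), a ≠ R.src i →
      a ≠ R.tgt i → ∃ x ∈ M ⊓ O.W (μ - Pi.single a 1), (O.e i ^ (p + 1)) x = y)
    (ihm : ∀ y ∈ M ⊓ O.W (μ - Pi.single (R.src i) 1 + (p : ℤ) • R.al i),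
      ∃ x ∈ M ⊓ O.W (μ - Pi.single (R.src i) 1), (O.e i ^ p) x = y)
    (ihq : ∀ y ∈ M ⊓ O.W (μ - Pi.single (R.tgt i) 1 + ((p : ℤ) + 2) • R.al i),
      ∃ x ∈ M ⊓ O.W (μ - Pi.single (R.tgt i) 1), (O.e i ^ (p + 2)) x = y)
    (q : A × C) (y : X)
    (hy : y ∈ M ⊓ O.W (μ + ((p : ℤ) + 1) • R.al i - Pi.single q.1 1)) :
    ∃ x ∈ M ⊓ O.W μ, (O.e i ^ (p + 1)) x = O.Z q.1 q.2 y := by
  obtain ⟨a, c⟩ := q
  simp only at hy ⊢
  have hal : R.al i = Pi.single (R.tgt i) 1 - Pi.single (R.src i) 1 := by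
    funext b
    rw [Dat.al, Pi.sub_apply, Pi.single_apply, Pi.single_apply]
  by_cases has : a = R.src i
  · subst has
    have h1 : μ + ((p : ℤ) + 1) • R.al i - Pi.single (R.src i) 1
        = μ - Pi.single (R.tgt i) 1 + ((p : ℤ) + 2) • R.al i := by
      rw [hal]
      funext b
      simp only [Pi.add_apply, Pi.sub_apply, Pi.smul_apply, smul_eq_mul]
      ring
    rw [h1] at hy
    obtain ⟨z, hz, hz2⟩ := ihq y hy
    have h2 : O.e i z ∈ M ⊓ O.W (μ - Pi.single (R.src i) 1) := by
      have := e_mem hP hz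
      have h3 : μ - Pi.single (R.tgt i) 1 + R.al i = μ - Pi.single (R.src i) 1 := by
        rw [hal]
        abel
      rwa [h3] at this
    refine ⟨O.Z (R.src i) c (O.e i z) - ((p : ℚ) + 1) • O.Z (R.tgt i) c z,
      (M ⊓ O.W μ).sub_mem (Z_mem hP _ c h2) ((M ⊓ O.W μ).smul_mem _ (Z_mem hP _ c hz)), ?_⟩
    rw [map_sub, map_smul, pow_Zs hP c p, pow_Z hP (R.tgt i) c (R.ne i).symm]
    have h4 : (O.e i ^ (p + 1)) (O.e i z) = y := by
      rw [← Module.End.mul_apply, ← pow_succ]
      exact hz2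
    have h5 : (O.e i ^ p) (O.e i z) = (O.e i ^ (p + 1)) z := by
      rw [← Module.End.mul_apply, ← pow_succ]
    rw [h4, h5]
    abel
  · by_cases hat : a = R.tgt i
    · subst hat
      have h1 : μ + ((p : ℤ) + 1) • R.al i - Pi.single (R.tgt i) 1
          = μ - Pi.single (R.src i) 1 + (p : ℤ) • R.al i := by
        rw [hal]
        funext b
        simp only [Pi.add_apply, Pi.sub_apply, Pi.smul_apply, smul_eq_mul]
        ring
      rw [h1] at hy
      obtain ⟨w, hw, hw2⟩ := ihm y hy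
      have hp : ((p : ℚ) + 1) ≠ 0 := by positivity
      have h2 : -(((p : ℚ) + 1)⁻¹ • O.e i y)
          ∈ M ⊓ O.W (μ - Pi.single (R.tgt i) 1 + ((p : ℤ) + 2) • R.al i) := by
        have h3 := e_mem hP hy
        have h4 : μ - Pi.single (R.src i) 1 + (p : ℤ) • R.al i + R.al i
            = μ - Pi.single (R.tgt i) 1 + ((p : ℤ) + 2) • R.al i := by
          rw [hal]
          funext b
          simp only [Pi.add_apply, Pi.sub_apply, Pi.smul_apply, smul_eq_mul]
          ring
        rw [h4] at h3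
        exact Submodule.neg_mem _ (Submodule.smul_mem _ _ h3)
      obtain ⟨z, hz, hz2⟩ := ihq _ h2
      have h5 : O.e i z ∈ M ⊓ O.W (μ - Pi.single (R.src i) 1) := by
        have := e_mem hP hz
        have h3 : μ - Pi.single (R.tgt i) 1 + R.al i = μ - Pi.single (R.src i) 1 := by
          rw [hal]
          abel
        rwa [h3] at this
      have h6 : O.e i z + ((p : ℚ) + 1)⁻¹ • w ∈ M ⊓ O.W (μ - Pi.single (R.src i) 1) :=
        Submodule.add_mem _ h5 (Submodule.smul_mem _ _ hw)
      refine ⟨O.Z (R.src i) c (O.e i z + ((p : ℚ) + 1)⁻¹ • w)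
        - ((p : ℚ) + 1) • O.Z (R.tgt i) c z,
        (M ⊓ O.W μ).sub_mem (Z_mem hP _ c h6) ((M ⊓ O.W μ).smul_mem _ (Z_mem hP _ c hz)), ?_⟩
      rw [map_sub, map_smul, pow_Zs hP c p, pow_Z hP (R.tgt i) c (R.ne i).symm]
      have h7 : (O.e i ^ (p + 1)) (O.e i z + ((p : ℚ) + 1)⁻¹ • w) = 0 := by
        rw [map_add, map_smul]
        have h8 : (O.e i ^ (p + 1)) (O.e i z) = -(((p : ℚ) + 1)⁻¹ • O.e i y) := by
          rw [← Module.End.mul_apply, ← pow_succ]
          exact hz2
        have h9 : (O.e i ^ (p + 1)) w = O.e i y := by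
          rw [pow_succ', Module.End.mul_apply, hw2]
        rw [h8, h9]
        abel
      have h10 : (O.e i ^ p) (O.e i z + ((p : ℚ) + 1)⁻¹ • w)
          = (O.e i ^ (p + 1)) z + ((p : ℚ) + 1)⁻¹ • y := by
        rw [map_add, map_smul, hw2, ← Module.End.mul_apply, ← pow_succ]
      rw [h7, h10, map_zero, zero_add, map_add, map_smul, smul_add, smul_smul,
        mul_inv_cancel₀ hp, one_smul]
      abel
    · have h1 : μ + ((p : ℤ) + 1) • R.al i - Pi.single a 1
          = μ - Pi.single a 1 + ((p : ℤ) + 1) • R.al i := by abel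
      rw [h1] at hy
      obtain ⟨x, hx, hx2⟩ := ihp a y hy has hat
      refine ⟨O.Z a c x, Z_mem hP a c hx, ?_⟩
      rw [pow_Z hP a c has, hx2]

end van

theorem t_VAN : S_VAN := by
  intro A J C X _ _ _ _ _ _ _ R O M i hP
  obtain ⟨c0, hc0⟩ := hP.bdd
  obtain ⟨d, hd⟩ := hP.gen
  -- enlarge the bound
  set c : ℤ := max c0 0 with hcdef
  have hc : ∀ μ, M ⊓ O.W μ ≠ ⊥ → ∀ a, -c ≤ μ a := by
    intro μ hμ a
    have := hc0 μ hμ a
    have h2 : c0 ≤ c := le_max_left _ _
    linarith
  have hcpos : 0 ≤ c := le_max_right _ _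
  refine ⟨d + c * Fintype.card A, ?_⟩
  intro k hk
  have hsum_al : ∀ (m : ℤ) (μ : A → ℤ), ∑ a, (μ + m • R.al i) a = ∑ a, μ a := by
    intro m μ
    simp only [Pi.add_apply, Pi.smul_apply, smul_eq_mul, Finset.sum_add_distrib, ← Finset.mul_sum]
    have : ∑ a, R.al i a = 0 := by
      simp only [Dat.al, Finset.sum_sub_distrib]
      rw [Finset.sum_ite_eq', Finset.sum_ite_eq']
      simp
    rw [this, mul_zero, add_zero]
  have hsum_single : ∀ (b : A) (μ : A → ℤ),
      ∑ a, (μ - (Pi.single b 1 : A → ℤ)) a = ∑ a, μ a - 1 := by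
    intro b μ
    simp only [Pi.sub_apply, Finset.sum_sub_distrib]
    congr 1
    rw [Finset.sum_pi_single']
    simp
  have key : ∀ N : ℕ, ∀ (p : ℕ) (μ : A → ℤ), ∑ a, μ a ≤ d + N →
      μ (R.tgt i) - μ (R.src i) = k - p →
      ∀ y ∈ M ⊓ O.W (μ + ((p : ℤ) + 1) • R.al i), ∃ x ∈ M ⊓ O.W μ, (O.e i ^ (p + 1)) x = y := by
    intro N
    induction N with
    | zero =>
      intro p μ hμ hμk y hy
      have hy0 : y = 0 := by
        by_contra hne
        have hbot : M ⊓ O.W (μ + ((p : ℤ) + 1) • R.al i) ≠ ⊥ := by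
          intro hb
          rw [hb, Submodule.mem_bot] at hy
          exact hne hy
        have h1 := hc _ hbot
        set ν : A → ℤ := μ + ((p : ℤ) + 1) • R.al i with hν
        have h2 : ∑ a, ν a ≤ d := by
          rw [hν, hsum_al]
          simpa using hμ
        have h3 : ν (R.tgt i) - ν (R.src i) = k + p + 2 := by
          rw [hν]
          simp only [Pi.add_apply, Pi.smul_apply, smul_eq_mul, Dat.al]
          have hne1 : R.tgt i ≠ R.src i := (R.ne i).symm
          have hne2 : R.src i ≠ R.tgt i := R.ne i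
          rw [if_neg hne1, if_neg hne2]
          simp only [if_true]
          linarith
        have h4 : ν (R.tgt i) + ∑ a ∈ Finset.univ.erase (R.tgt i), ν a = ∑ a, ν a :=
          Finset.add_sum_erase _ _ (Finset.mem_univ _)
        have h5 : (Finset.univ.erase (R.tgt i)).card • (-c) ≤
            ∑ a ∈ Finset.univ.erase (R.tgt i), ν a :=
          Finset.card_nsmul_le_sum _ _ _ (fun a _ => h1 a)
        have h6 : (Finset.univ.erase (R.tgt i)).card = Fintype.card A - 1 := by
          rw [Finset.card_erase_of_mem (Finset.mem_univ _), Finset.card_univ]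
        have h7 : 1 ≤ Fintype.card A := Fintype.card_pos_iff.mpr ⟨R.tgt i⟩
        rw [h6, nsmul_eq_mul, Nat.cast_sub h7] at h5
        have h8 := h1 (R.src i)
        push_cast at h5
        nlinarith
      exact ⟨0, Submodule.zero_mem _, by rw [map_zero, hy0]⟩
    | succ N ih =>
      intro p μ hμ hμk y hy
      by_cases hμd : ∑ a, μ a ≤ d + N
      · exact ih p μ hμd hμk y hy
      push Not at hμd
      have hνd : d < ∑ a, (μ + ((p : ℤ) + 1) • R.al i) a := by
        rw [hsum_al]
        have : (0 : ℤ) ≤ N := Int.natCast_nonneg N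
        linarith
      have hy2 := hd _ hνd hy
      have hμN : ∀ b : A, ∑ a, (μ - (Pi.single b 1 : A → ℤ)) a ≤ d + N := by
        intro b
        rw [hsum_single]
        push_cast at hμ
        linarith
      have hst : R.src i ≠ R.tgt i := R.ne i
      have step := van_step hP p μ
        (fun a y hy has hat => ih p (μ - Pi.single a 1) (hμN a) (by
          simp only [Pi.sub_apply, Pi.single_apply, if_neg has.symm, if_neg hat.symm]
          linarith) y hy)
        (by
          intro y hy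
          rcases p with _ | p
          · refine ⟨y, ?_, by simp⟩
            simpa using hy
          · obtain ⟨x, hx, hx2⟩ := ih p (μ - Pi.single (R.src i) 1) (hμN _) (by
              simp only [Pi.sub_apply, Pi.single_apply, if_neg hst.symm, if_true]
              push_cast at hμk
              linarith) y (by
                have h1 : ((p + 1 : ℕ) : ℤ) = (p : ℤ) + 1 := by push_cast; ring
                rwa [h1] at hy)
            exact ⟨x, hx, hx2⟩)
        (by
          intro y hy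
          obtain ⟨x, hx, hx2⟩ := ih (p + 1) (μ - Pi.single (R.tgt i) 1) (hμN _) (by
              simp only [Pi.sub_apply, Pi.single_apply, if_neg hst, if_true]
              push_cast
              linarith) y (by
                have h1 : (((p + 1 : ℕ) : ℤ) + 1) = (p : ℤ) + 2 := by push_cast; ring
                rwa [h1])
          exact ⟨x, hx, hx2⟩)
      -- the set of solvable right hand sides is a subspace
      let T : Submodule ℚ X := (M ⊓ O.W μ).map (O.e i ^ (p + 1))
      have hT : ⨆ q : A × C, (M ⊓ O.W (μ + ((p : ℤ) + 1) • R.al i - Pi.single q.1 1)).map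
          (O.Z q.1 q.2) ≤ T := by
        refine iSup_le fun q => ?_
        rintro _ ⟨y', hy', rfl⟩
        obtain ⟨x, hx, hx2⟩ := step q y' hy'
        exact ⟨x, hx, hx2⟩
      obtain ⟨x, hx, hx2⟩ := hT hy2
      exact ⟨x, hx, hx2⟩
  intro p μ hμk y hy
  refine key (∑ a, μ a - d).toNat p μ ?_ hμk y hy
  have := Int.self_le_toNat (∑ a, μ a - d)
  linarith

end Pool.Agent.Q198.SK
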